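import Pool.Agent.helper24.Welsh.Defs

/-!
# From Theorem T to matroids (module TL of the Welsh project)
-/

set_option autoImplicit false

namespace Pool.Agent.helper24.Welsh

open Finset Module

/-- Independence of a finite set of vectors over the field with two elements. -/
lemma TL_indep {V : Type} [AddCommGroup V] [Module (ZMod 2) V] (A : Finset V) :
    LinearIndepOn (ZMod 2) (id : V → V) (A : Set V) ↔ Ind (⊥ : Submodule (ZMod 2) V) A := by
  classical
  rw [linearIndepOn_finset_iff]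
  constructor
  · intro h B hB hs
    rw [Submodule.mem_bot] at hs
    by_contra hne
    obtain ⟨x, hx⟩ := Finset.nonempty_iff_ne_empty.2 hne
    have h1 := h (fun y => if y ∈ B then 1 else 0) ?_ x (hB hx)
    · simp [hx] at h1
    · simp only [id, ite_smul, one_smul, zero_smul]
      rw [← Finset.sum_filter, Finset.filter_mem_eq_inter, Finset.inter_eq_right.2 hB]
      exact hs
  · intro h f hf x hx
    by_contra hne
    have hf1 : ∀ y, f y = 0 ∨ f y = 1 := fun y => by
      generalize f y = t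
      revert t; decide
    have h1 := h (A.filter (fun y => f y = 1)) (Finset.filter_subset _ _) ?_
    · have : x ∈ A.filter (fun y => f y = 1) := by
        rw [Finset.mem_filter]
        exact ⟨hx, (hf1 x).resolve_left hne⟩
      rw [h1] at this
      simp at this
    · have h2 : sg (A.filter (fun y => f y = 1)) = ∑ i ∈ A, f i • id i := by
        rw [sg, Finset.sum_filter]
        refine Finset.sum_congr rfl fun y _ => ?_
        rcases hf1 y with h0 | h0 <;> simp [h0]
      rw [Submodule.mem_bot, h2, hf]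

section

variable {α : Type} [Finite α] (M : Matroid α) {n : ℕ} (v : α → (Fin n → ZMod 2))

open Classical in
/-- the vectors of a set of elements -/
noncomputable def TLim (C : Set α) : Finset (Fin n → ZMod 2) := C.toFinite.toFinset.image v

omit [Finite α] in
lemma TL_mem [Finite α] (C : Set α) (x : Fin n → ZMod 2) : x ∈ TLim v C ↔ ∃ a ∈ C, v a = x := by
  classical
  simp [TLim]

lemma TL_coe (C : Set α) : ((TLim v C : Finset _) : Set (Fin n → ZMod 2)) = v '' C := by
  ext x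
  simp [TL_mem]

lemma TL_card (C : Set α) (h : Set.InjOn v C) : (TLim v C).card = C.ncard := by
  rw [← Set.ncard_coe_finset, TL_coe, h.ncard_image]

omit [Finite α] in
lemma TL_preimage [Finite α] {C : Set α} {A : Finset (Fin n → ZMod 2)} (hA : A ⊆ TLim v C) :
    ∃ D ⊆ C, TLim v D = A := by
  refine ⟨{a ∈ C | v a ∈ A}, Set.sep_subset _ _, ?_⟩
  ext x
  rw [TL_mem]
  constructor
  · rintro ⟨a, ⟨_, h2⟩, rfl⟩
    exact h2
  · intro hx
    obtain ⟨a, ha, rfl⟩ := (TL_mem v C x).1 (hA hx)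
    exact ⟨a, ⟨ha, hx⟩, rfl⟩

variable (hv : ∀ I : Set α, M.Indep I ↔ (I ⊆ M.E ∧ LinearIndependent (ZMod 2) (fun x : I => v x)))
  (hinj : Set.InjOn v M.E)

include hv hinj

lemma TL_indep_iff {I : Set α} (hI : I ⊆ M.E) :
    M.Indep I ↔ Ind (⊥ : Submodule (ZMod 2) (Fin n → ZMod 2)) (TLim v I) := by
  rw [← TL_indep, TL_coe, hv, and_iff_right hI]
  exact (linearIndepOn_iff_image (hinj.mono hI))

omit hv in
lemma TL_sub {C D : Set α} (hC : C ⊆ M.E) (hD : D ⊆ M.E) (h : TLim v D ⊆ TLim v C) : D ⊆ C := by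
  intro a ha
  obtain ⟨b, hb, hab⟩ := (TL_mem v C (v a)).1 (h ((TL_mem v D (v a)).2 ⟨a, ha, rfl⟩))
  rw [hinj (hD ha) (hC hb) hab.symm]
  exact hb

lemma TL_circ {C : Set α} (hC : C ⊆ M.E) :
    M.IsCircuit C ↔ Circ (⊥ : Submodule (ZMod 2) (Fin n → ZMod 2)) (TLim v C) := by
  rw [Matroid.isCircuit_iff_forall_ssubset]
  constructor
  · rintro ⟨hd, hi⟩
    have h1 : ¬ Ind (⊥ : Submodule (ZMod 2) (Fin n → ZMod 2)) (TLim v C) := by
      rw [← TL_indep_iff M v hv hinj hC]
      exact hd.not_indep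
    have key : ∀ A ⊆ TLim v C, A.Nonempty → sg A ∈ (⊥ : Submodule (ZMod 2) (Fin n → ZMod 2)) →
        A = TLim v C := by
      intro A hA hne hs
      obtain ⟨D, hDC, rfl⟩ := TL_preimage v hA
      by_contra hne'
      have hss : D ⊂ C := by
        refine lt_of_le_of_ne hDC ?_
        rintro rfl
        exact hne' rfl
      have h2 := (TL_indep_iff M v hv hinj (hDC.trans hC)).1 (hi hss)
      have h3 := h2 _ subset_rfl hs
      exact hne.ne_empty h3
    have h2 : ∃ A ⊆ TLim v C, A.Nonempty ∧ sg A ∈ (⊥ : Submodule (ZMod 2) (Fin n → ZMod 2)) := by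
      by_contra hcon
      push Not at hcon
      refine h1 fun A hA hs => ?_
      by_contra hne
      exact hcon A hA (Finset.nonempty_iff_ne_empty.2 hne) hs
    obtain ⟨A, hA, hne, hs⟩ := h2
    have h3 := key A hA hne hs
    subst h3
    exact ⟨hne, hs, key⟩
  · rintro ⟨hne, hs, hmin⟩
    constructor
    · rw [← Matroid.not_indep_iff hC, TL_indep_iff M v hv hinj hC]
      intro hI
      exact hne.ne_empty (hI _ subset_rfl hs)
    · intro I hI
      rw [TL_indep_iff M v hv hinj (hI.subset.trans hC)]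
      intro A hA hsA
      by_contra hneA
      have hsub : TLim v I ⊆ TLim v C := by
        intro x hx
        rw [TL_mem] at hx ⊢
        obtain ⟨a, ha, rfl⟩ := hx
        exact ⟨a, hI.subset ha, rfl⟩
      have h4 := hmin A (hA.trans hsub) (Finset.nonempty_iff_ne_empty.2 hneA) hsA
      have h5 : C ⊆ I := TL_sub M v hinj (hI.subset.trans hC) hC (by rw [← h4]; exact hA)
      exact hI.not_subset h5

end

/-- the span of the vectors of a base is the span of all vectors -/
lemma TL_span {α : Type} [Finite α] (M : Matroid α) {n : ℕ} (v : α → (Fin n → ZMod 2))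
    (hv : ∀ I : Set α, M.Indep I ↔ (I ⊆ M.E ∧ LinearIndependent (ZMod 2) (fun x : I => v x)))
    {B : Set α} (hB : M.IsBase B) {e : α} (he : e ∈ M.E) :
    v e ∈ Submodule.span (ZMod 2) (v '' B) := by
  by_cases heB : e ∈ B
  · exact Submodule.subset_span ⟨e, heB, rfl⟩
  by_contra hcon
  have h1 : LinearIndepOn (ZMod 2) v B := ((hv B).1 hB.indep).2
  have h2 : LinearIndepOn (ZMod 2) v (insert e B) := (linearIndepOn_insert heB).2 ⟨h1, hcon⟩
  have h3 : M.Indep (insert e B) := (hv _).2 ⟨Set.insert_subset he hB.subset_ground, h2⟩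
  exact heB (hB.mem_of_insert_indep h3)

/-- from Theorem T to matroids -/
theorem translate {α : Type} [Finite α] (M : Matroid α) {n : ℕ} (v : α → (Fin n → ZMod 2))
    (hv : ∀ I : Set α, M.Indep I ↔ (I ⊆ M.E ∧ LinearIndependent (ZMod 2) (fun x : I => v x)))
    (hsimple : ∀ e ∈ M.E, ∀ f ∈ M.E, M.Indep {e, f})
    (hconn : ∀ e ∈ M.E, ∀ f ∈ M.E, e ≠ f → ∃ C, M.IsCircuit C ∧ e ∈ C ∧ f ∈ C)
    (hnt : M.E.Nontrivial) (B : Set α) (hB : M.IsBase B)
    (hK : ∀ K, M.IsCocircuit K → B.ncard + 1 ≤ 2 * K.ncard)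
    (hT : ∀ G : Finset (Fin n → ZMod 2), (∀ g ∈ G, ∃ a ∈ M.E, v a = g) → (∀ a ∈ M.E, v a ∈ G) →
      (∀ x ∈ G, x ∉ (⊥ : Submodule (ZMod 2) (Fin n → ZMod 2))) →
      (∀ x ∈ G, ∀ y ∈ G, x + y ∈ (⊥ : Submodule (ZMod 2) (Fin n → ZMod 2)) → x = y) →
      Conn (⊥ : Submodule (ZMod 2) (Fin n → ZMod 2)) G →
      finrank (ZMod 2) (cl (⊥ : Submodule (ZMod 2) (Fin n → ZMod 2)) G) = B.ncard → 2 ≤ B.ncard →
      (∀ H : Submodule (ZMod 2) (Fin n → ZMod 2), ¬ (∀ x ∈ G, x ∈ H) → B.ncard + 1 ≤ 2 * (out G H).card) →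
      ∃ Z ⊆ G, Circ (⊥ : Submodule (ZMod 2) (Fin n → ZMod 2)) Z ∧ Z.card = B.ncard + 1) :
    ∃ C, M.IsCircuit C ∧ C.ncard = B.ncard + 1 := by
  classical
  have hne0 : ∀ e ∈ M.E, v e ≠ 0 := by
    intro e he h0
    have h1 := ((hv {e}).1 (by simpa using hsimple e he e he)).2
    have h2 : LinearIndepOn (ZMod 2) v {e} := h1
    exact h2.ne_zero rfl h0
  have hinj : Set.InjOn v M.E := by
    intro e he f hf hef
    have h1 : LinearIndepOn (ZMod 2) v {e, f} := ((hv _).1 (hsimple e he f hf)).2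
    exact h1.injOn (by simp) (by simp) hef
  have hfin : (∃ Z ⊆ TLim v M.E, Circ (⊥ : Submodule (ZMod 2) (Fin n → ZMod 2)) Z ∧
      Z.card = B.ncard + 1) → ∃ C, M.IsCircuit C ∧ C.ncard = B.ncard + 1 := by
    rintro ⟨Z, hZG, hZ, hZc⟩
    obtain ⟨C, hC, rfl⟩ := TL_preimage v hZG
    refine ⟨C, (TL_circ M v hv hinj hC).2 hZ, ?_⟩
    rw [← TL_card v C (hinj.mono hC), hZc]
  apply hfin
  refine hT (TLim v M.E) (fun g hg => (TL_mem v _ g).1 hg)
    (fun a ha => (TL_mem v _ _).2 ⟨a, ha, rfl⟩) ?_ ?_ ?_ ?_ ?_ ?_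
  · intro x hx h0
    obtain ⟨a, ha, rfl⟩ := (TL_mem v _ x).1 hx
    exact hne0 a ha ((Submodule.mem_bot _).1 h0)
  · intro x _ y _ h0
    rw [Submodule.mem_bot] at h0
    have h1 : x = -y := eq_neg_of_add_eq_zero_left h0
    rw [h1]
    ext i
    simp only [Pi.neg_apply]
    generalize y i = t
    revert t; decide
  · intro A hA hAne hAG
    obtain ⟨x, hx⟩ := hAne
    have : ∃ y ∈ TLim v M.E, y ∉ A := by
      by_contra hcon
      push Not at hcon
      exact hAG (Finset.Subset.antisymm hA hcon)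
    obtain ⟨y, hy, hyA⟩ := this
    obtain ⟨e, he, rfl⟩ := (TL_mem v _ x).1 (hA hx)
    obtain ⟨f, hf, rfl⟩ := (TL_mem v _ y).1 hy
    have hef : e ≠ f := by
      rintro rfl
      exact hyA hx
    obtain ⟨C, hC, heC, hfC⟩ := hconn e he f hf hef
    have hCE := hC.subset_ground
    have hcirc := (TL_circ M v hv hinj hCE).1 hC
    refine ⟨TLim v C, ?_, hcirc.2.1, ?_⟩
    · intro x hx
      rw [TL_mem] at hx ⊢
      obtain ⟨a, ha, rfl⟩ := hx
      exact ⟨a, hCE ha, rfl⟩
    · intro hs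
      have h1 := hcirc.2.2 (TLim v C ∩ A) Finset.inter_subset_left
        ⟨v e, Finset.mem_inter.2 ⟨(TL_mem v _ _).2 ⟨e, heC, rfl⟩, hx⟩⟩ hs
      have h2 : v f ∈ TLim v C ∩ A := by
        rw [h1]
        exact (TL_mem v _ _).2 ⟨f, hfC, rfl⟩
      exact hyA (Finset.mem_inter.1 h2).2
  · have h1 : cl (⊥ : Submodule (ZMod 2) (Fin n → ZMod 2)) (TLim v M.E) =
        Submodule.span (ZMod 2) (v '' B) := by
      rw [cl, bot_sup_eq, TL_coe]
      apply le_antisymm
      · rw [Submodule.span_le]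
        rintro _ ⟨e, he, rfl⟩
        exact TL_span M v hv hB he
      · exact Submodule.span_mono (Set.image_mono hB.subset_ground)
    have h2 : LinearIndepOn (ZMod 2) (id : (Fin n → ZMod 2) → _) (v '' B) := by
      have h3 : LinearIndepOn (ZMod 2) v B := ((hv B).1 hB.indep).2
      exact h3.id_image
    rw [h1, ← TL_coe, ← TL_card v B (hinj.mono hB.subset_ground)]
    rw [← TL_coe] at h2
    exact finrank_span_finset_eq_card h2
  · obtain ⟨e, he, f, hf, hef⟩ := hnt
    obtain ⟨B', hB', hs⟩ := (hsimple e he f hf).exists_isBase_superset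
    rw [hB.ncard_eq_ncard_of_isBase hB']
    have h1 : ({e, f} : Set α).ncard = 2 := Set.ncard_pair hef
    rw [← h1]
    exact Set.ncard_le_ncard hs (Set.toFinite _)
  · intro H hH
    set X : Set α := {e ∈ M.E | v e ∉ H} with hX
    have hXE : X ⊆ M.E := Set.sep_subset _ _
    have h1 : ¬ M✶.Indep X := by
      intro hco
      obtain ⟨B', hB', hB'X⟩ := Matroid.Coindep.exists_isBase_subset_compl (M := M) hco
      apply hH
      intro x hx
      obtain ⟨e, he, rfl⟩ := (TL_mem v _ x).1 hx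
      have h2 := TL_span M v hv hB' he
      refine (Submodule.span_le.2 ?_) h2
      rintro _ ⟨a, ha, rfl⟩
      have h3 := hB'X ha
      by_contra hcon
      exact h3.2 ⟨h3.1, hcon⟩
    have h2 : M✶.Dep X := by
      rw [← Matroid.not_indep_iff (by simpa using hXE)]
      exact h1
    obtain ⟨K, hKX, hKc⟩ := h2.exists_isCircuit_subset
    have h3 := hK K hKc
    have h4 : K.ncard ≤ X.ncard := Set.ncard_le_ncard hKX (Set.toFinite _)
    have h5 : out (TLim v M.E) H = TLim v X := by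
      ext x
      simp only [out, Finset.mem_filter, TL_mem, hX]
      constructor
      · rintro ⟨⟨a, ha, rfl⟩, h⟩
        exact ⟨a, ⟨ha, h⟩, rfl⟩
      · rintro ⟨a, ⟨ha, h⟩, rfl⟩
        exact ⟨⟨a, ha, rfl⟩, h⟩
    rw [h5, TL_card v X (hinj.mono hXE)]
    omega

end Pool.Agent.helper24.Welsh
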