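import Pool.Agent.helper24.Welsh.Tool2

/-!
# Arc circuits (module AR of the Welsh project)
-/

set_option autoImplicit false

namespace Pool.Agent.helper24.Welsh

open Finset Module

variable {V : Type} [AddCommGroup V] [Module (ZMod 2) V] [DecidableEq V]

/-- basic circuit -/
theorem arc_circ {U : Submodule (ZMod 2) V} {Z B D : Finset V} (hZ : Circ U Z) (hB : Ind (cl U Z) B)
    (h1 : ∀ x ∈ D, x ∉ cl (cl U Z) B) (h2 : ∀ x ∈ D, ∀ y ∈ D, x + y ∈ cl (cl U Z) B)
    {x y : V} (hx : x ∈ D) (hy : y ∈ D) (hxy : x ≠ y) {A B1 : Finset V} (hA : A ⊆ Z) (hAne : A.Nonempty) (hB1 : B1 ⊆ B)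
    (hs : x + y + sg B1 + sg A ∈ U) :
    Circ U (({x, y} : Finset V) ∪ B1 ∪ (Z \ A)) ∧ (({x, y} : Finset V) ∪ B1 ∪ (Z \ A)).card + A.card = 2 + B1.card + Z.card := by
  have _ := h2
  set H := cl (cl U Z) B with hH
  have hUZ : U ≤ cl U Z := le_cl U Z
  have hZH : cl U Z ≤ H := le_cl _ B
  have hxH := h1 x hx
  have hyH := h1 y hy
  have hZm : ∀ z ∈ Z, z ∈ H := fun z hz => hZH (self_mem_cl hz)
  have hBm : ∀ b ∈ B, b ∈ H := fun b hb => self_mem_cl hb
  have hd0 : Disjoint Z B := Ind.disj hB
  have hdB : Disjoint B1 (Z \ A) :=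
    (Disjoint.mono hB1 (sdiff_subset) hd0.symm)
  have hxB : x ∉ B1 := fun h => hxH (hBm x (hB1 h))
  have hyB : y ∉ B1 := fun h => hyH (hBm y (hB1 h))
  have hxZ : x ∉ Z := fun h => hxH (hZm x h)
  have hyZ : y ∉ Z := fun h => hyH (hZm y h)
  have hd1 : Disjoint ({x, y} : Finset V) B1 := by
    rw [Finset.disjoint_left]
    intro a ha
    rcases Finset.mem_insert.1 ha with rfl | ha
    · exact hxB
    · rw [Finset.mem_singleton.1 ha]; exact hyB
  have hd2 : Disjoint ({x, y} ∪ B1 : Finset V) (Z \ A) := by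
    rw [Finset.disjoint_union_left]
    refine ⟨?_, hdB⟩
    rw [Finset.disjoint_left]
    intro a ha hc
    have hc' := (Finset.mem_sdiff.1 hc).1
    rcases Finset.mem_insert.1 ha with rfl | ha
    · exact hxZ hc'
    · rw [Finset.mem_singleton.1 ha] at hc'; exact hyZ hc'
  refine ⟨⟨⟨x, by simp⟩, ?_, ?_⟩, ?_⟩
  · rw [sg_union hd2, sg_union hd1, sg_pair hxy, sg_sdiff hA]
    have e1 : x + y + sg B1 + (sg Z + sg A) = (x + y + sg B1 + sg A) + sg Z := by abel
    rw [e1]
    exact U.add_mem hs hZ.2.1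
  · intro E hE hEne hEs
    set E2 := E ∩ B1 with hE2
    set E3 := E ∩ (Z \ A) with hE3
    have hE2B : E2 ⊆ B := inter_subset_right.trans hB1
    have hE3Z : E3 ⊆ Z := inter_subset_right.trans sdiff_subset
    have hE3A : E3 ⊆ Z \ A := inter_subset_right
    have hdec : E = (E ∩ {x, y}) ∪ E2 ∪ E3 := by
      rw [hE2, hE3, ← Finset.inter_union_distrib_left, ← Finset.inter_union_distrib_left]
      exact (Finset.inter_eq_left.2 hE).symm
    have hdd1 : Disjoint (E ∩ {x, y}) E2 := Disjoint.mono inter_subset_right inter_subset_right hd1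
    have hdd2 : Disjoint ((E ∩ {x, y}) ∪ E2) E3 := by
      refine Disjoint.mono ?_ inter_subset_right hd2
      exact Finset.union_subset_union inter_subset_right inter_subset_right
    have hsE : sg E = sg (E ∩ {x, y}) + sg E2 + sg E3 := by
      conv_lhs => rw [hdec]
      rw [sg_union hdd2, sg_union hdd1]
    rw [hsE] at hEs
    have hE2H : sg E2 ∈ H := sg_mem_cl hE2B
    have hE3H : sg E3 ∈ H := hZH (sg_mem_cl hE3Z)
    have hUH : U ≤ H := hUZ.trans hZH
    by_cases hxE : x ∈ E
    · by_cases hyE : y ∈ E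
      · have he : E ∩ {x, y} = {x, y} := by
          rw [Finset.inter_eq_right]
          intro a ha
          rcases Finset.mem_insert.1 ha with rfl | ha
          · exact hxE
          · rw [Finset.mem_singleton.1 ha]; exact hyE
        rw [he, sg_pair hxy] at hEs
        have h3 : (sg E2 + sg B1) + (sg E3 + sg A) ∈ U := by
          have e1 : (sg E2 + sg B1) + (sg E3 + sg A) =
              (x + y + sg E2 + sg E3) + (x + y + sg B1 + sg A) := by
            have e2 : (x + y + sg E2 + sg E3) + (x + y + sg B1 + sg A) =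
              (sg E2 + sg B1) + (sg E3 + sg A) + ((x + y) + (x + y)) := by abel
            rw [e2, dbl, add_zero]
          rw [e1]
          exact U.add_mem hEs hs
        have h4 : sg E3 + sg A ∈ cl U Z := (cl U Z).add_mem (sg_mem_cl hE3Z) (sg_mem_cl hA)
        have h5 : sg E2 + sg B1 ∈ cl U Z := by
          have := (mem_congr (hUZ h3)).2 h4
          exact this
        have h6 : E2 = B1 := Ind.uniq hB hE2B hB1 h5
        rw [h6, dbl, zero_add] at h3
        have h7 : sg A + sg E3 ∈ U := by rw [add_comm]; exact h3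
        rcases Circ.sides hZ hA hE3Z h7 with h8 | h8
        · exfalso
          obtain ⟨a, ha⟩ := hAne
          have h9 : a ∈ E3 := by rw [h8]; exact ha
          exact (Finset.mem_sdiff.1 (hE3A h9)).2 ha
        · rw [hdec, he, h6, h8]
      · exfalso
        have he : E ∩ {x, y} = {x} := by
          ext a
          simp only [Finset.mem_inter, Finset.mem_insert, Finset.mem_singleton]
          constructor
          · rintro ⟨ha, rfl | rfl⟩
            · rfl
            · exact absurd ha hyE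
          · rintro rfl
            exact ⟨hxE, Or.inl rfl⟩
        rw [he, sg_singleton] at hEs
        have e1 : x = (x + sg E2 + sg E3) + (sg E2 + sg E3) := by
          have : (x + sg E2 + sg E3) + (sg E2 + sg E3) = x + ((sg E2 + sg E3) + (sg E2 + sg E3)) := by abel
          rw [this, dbl, add_zero]
        apply hxH
        rw [e1]
        exact H.add_mem (hUH hEs) (H.add_mem hE2H hE3H)
    · by_cases hyE : y ∈ E
      · exfalso
        have he : E ∩ {x, y} = {y} := by
          ext a
          simp only [Finset.mem_inter, Finset.mem_insert, Finset.mem_singleton]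
          constructor
          · rintro ⟨ha, rfl | rfl⟩
            · exact absurd ha hxE
            · rfl
          · rintro rfl
            exact ⟨hyE, Or.inr rfl⟩
        rw [he, sg_singleton] at hEs
        have e1 : y = (y + sg E2 + sg E3) + (sg E2 + sg E3) := by
          have : (y + sg E2 + sg E3) + (sg E2 + sg E3) = y + ((sg E2 + sg E3) + (sg E2 + sg E3)) := by abel
          rw [this, dbl, add_zero]
        apply hyH
        rw [e1]
        exact H.add_mem (hUH hEs) (H.add_mem hE2H hE3H)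
      · exfalso
        have he : E ∩ {x, y} = ∅ := by
          ext a
          simp only [Finset.mem_inter, Finset.mem_insert, Finset.mem_singleton, Finset.notMem_empty,
            iff_false]
          rintro ⟨ha, rfl | rfl⟩
          · exact hxE ha
          · exact hyE ha
        rw [he, sg_empty, zero_add] at hEs
        have h3 : sg E2 ∈ cl U Z := (mem_congr (hUZ hEs)).2 (sg_mem_cl hE3Z)
        have h4 : E2 = ∅ := hB E2 hE2B h3
        rw [h4, sg_empty, zero_add] at hEs
        have h5 : E3 = ∅ := by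
          rcases Circ.sub_eq hZ hE3Z hEs with h5 | h5
          · exact h5
          · exfalso
            obtain ⟨a, ha⟩ := hAne
            have h9 : a ∈ E3 := by rw [h5]; exact hA ha
            exact (Finset.mem_sdiff.1 (hE3A h9)).2 ha
        rw [he, h4, h5] at hdec
        rw [hdec] at hEne
        simp at hEne
  · rw [Finset.card_union_of_disjoint hd2, Finset.card_union_of_disjoint hd1, Finset.card_pair hxy,
      add_assoc, Finset.card_sdiff_add_card_eq_card hA]

/-- if `Z` is a longest circuit (inside `K`) through `e`, then sides avoiding `e` have size at least two -/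
theorem side_rooted {U : Submodule (ZMod 2) V} {K Z B D : Finset V} (hZ : Circ U Z) (hB : Ind (cl U Z) B)
    (h1 : ∀ x ∈ D, x ∉ cl (cl U Z) B) (h2 : ∀ x ∈ D, ∀ y ∈ D, x + y ∈ cl (cl U Z) B)
    (hZK : Z ⊆ K) (hBK : B ⊆ K) (hDK : D ⊆ K) {e : V} (he : e ∈ Z)
    (hmax : ∀ Z' ⊆ K, Circ U Z' → e ∈ Z' → Z'.card ≤ Z.card) :
    ∀ x ∈ D, ∀ y ∈ D, ∀ A ⊆ Z, A.Nonempty → e ∉ A → x + y + sg A ∈ cl U B → 2 ≤ A.card := by
  intro x hx y hy A hA hAne heA hs
  obtain ⟨B1, hB1, hs1⟩ := mem_cl.1 hs
  have hs' : x + y + sg B1 + sg A ∈ U := by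
    have e1 : x + y + sg B1 + sg A = x + y + sg A + sg B1 := by abel
    rw [e1]; exact hs1
  by_cases hxy : x = y
  · exfalso
    rw [hxy, dbl, zero_add] at hs'
    have h3 : sg B1 ∈ cl U Z := (mem_congr (le_cl U Z hs')).2 (sg_mem_cl hA)
    have h4 : B1 = ∅ := hB B1 hB1 h3
    rw [h4, sg_empty, zero_add] at hs'
    have h5 := hZ.2.2 A hA hAne hs'
    rw [h5] at heA
    exact heA he
  · obtain ⟨hc, hcard⟩ := arc_circ hZ hB h1 h2 hx hy hxy hA hAne hB1 hs'
    have h3 := hmax _ ?_ hc ?_
    · omega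
    · refine Finset.union_subset (Finset.union_subset ?_ (hB1.trans hBK)) (sdiff_subset.trans hZK)
      intro a ha
      rcases Finset.mem_insert.1 ha with rfl | ha
      · exact hDK hx
      · rw [Finset.mem_singleton.1 ha]; exact hDK hy
    · exact Finset.mem_union_right _ (Finset.mem_sdiff.2 ⟨he, heA⟩)

/-- if `Z` is a longest circuit then all sides have size at least two plus the distance -/
theorem side_top {U : Submodule (ZMod 2) V} {K Z B D : Finset V} (hZ : Circ U Z) (hB : Ind (cl U Z) B)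
    (h1 : ∀ x ∈ D, x ∉ cl (cl U Z) B) (h2 : ∀ x ∈ D, ∀ y ∈ D, x + y ∈ cl (cl U Z) B)
    (hZK : Z ⊆ K) (hBK : B ⊆ K) (hDK : D ⊆ K)
    (hmax : ∀ Z' ⊆ K, Circ U Z' → Z'.card ≤ Z.card) :
    ∀ x ∈ D, ∀ y ∈ D, ∀ A ⊆ Z, A.Nonempty → A ≠ Z → ∀ B1 ⊆ B, x + y + sg B1 + sg A ∈ U → 2 + B1.card ≤ A.card := by
  intro x hx y hy A hA hAne hAZ B1 hB1 hs'
  by_cases hxy : x = y
  · exfalso
    rw [hxy, dbl, zero_add] at hs'
    have h3 : sg B1 ∈ cl U Z := (mem_congr (le_cl U Z hs')).2 (sg_mem_cl hA)
    have h4 : B1 = ∅ := hB B1 hB1 h3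
    rw [h4, sg_empty, zero_add] at hs'
    exact hAZ (hZ.2.2 A hA hAne hs')
  · obtain ⟨hc, hcard⟩ := arc_circ hZ hB h1 h2 hx hy hxy hA hAne hB1 hs'
    have h3 := hmax _ ?_ hc
    · omega
    · refine Finset.union_subset (Finset.union_subset ?_ (hB1.trans hBK)) (sdiff_subset.trans hZK)
      intro a ha
      rcases Finset.mem_insert.1 ha with rfl | ha
      · exact hDK hx
      · rw [Finset.mem_singleton.1 ha]; exact hDK hy

end Pool.Agent.helper24.Welsh
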